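import Pool.Agent.Helper69.TPF.St2

/-!
Project TPF (MP_2b710e_gt), module DEL.
-/

set_option autoImplicit false

namespace Pool.Agent.Helper11.TPF

open Pool.Agent.Helper69.TPF

theorem cDEL : St_DEL := by
  intro g t D x y z hx hy
  obtain ⟨k₀, hk₀⟩ := D.s0 z
  obtain ⟨k₁, h10, h11, h12⟩ := D.n1 (x * (D.f1 k₀)⁻¹) (by
    rw [map_mul, map_inv, ← D.c2, hk₀, hx, mul_inv_cancel])
  obtain ⟨k₂, h20, h21, h22⟩ := D.n2 (y * (D.f2 k₀)⁻¹) (by
    rw [map_mul, map_inv, ← D.c1, hk₀, hy, mul_inv_cancel])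
  refine ⟨k₁ * k₂ * k₀, ?_, ?_, ?_⟩
  · rw [map_mul, map_mul, h11, h21, mul_one, inv_mul_cancel_right]
  · rw [map_mul, map_mul, h12, h22, one_mul, inv_mul_cancel_right]
  · rw [map_mul, map_mul, h10, h20, hk₀, one_mul, one_mul]

end Pool.Agent.Helper11.TPF
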